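import Pool.Agent.R712.SERed

/-!
# MP_873b83_al, Q1

Every `2 × 2` integer matrix `A` with irrational eigenvalues satisfying the Perron condition (P)
is shift equivalent over `ℤ` to a primitive integer matrix (the net trace condition (NT) is then
automatic and is not assumed).
-/

set_option autoImplicit false

namespace Pool.Agent.Results.MP_873b83_al.PrimitiveShiftEquiv

open Matrix Polynomial

/-- The spectrum (with multiplicity) of an integer `2 × 2` matrix. -/
noncomputable def spec (A : Matrix (Fin 2) (Fin 2) ℤ) : Multiset ℂ :=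
  (A.map (Int.cast : ℤ → ℂ)).charpoly.roots

theorem result (A : Matrix (Fin 2) (Fin 2) ℤ)
    -- the eigenvalues are irrational
    (hirr : ∀ μ ∈ spec A, ∀ x : ℚ, μ ≠ (x : ℂ))
    -- condition (P)
    (hP : ∃ l : ℝ, 0 < l ∧ (l : ℂ) ∈ spec A ∧ ∀ μ ∈ (spec A).erase (l : ℂ), ‖μ‖ < l) :
    ∃ (n : ℕ) (B : Matrix (Fin n) (Fin n) ℤ), 0 < n ∧
      -- `B` is primitive
      ((∀ i j, 0 ≤ B i j) ∧ ∃ N, 1 ≤ N ∧ ∀ i j, 0 < (B ^ N) i j) ∧
      -- `A` and `B` are shift equivalent over `ℤ`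
      ∃ (R : Matrix (Fin 2) (Fin n) ℤ) (S : Matrix (Fin n) (Fin 2) ℤ) (l : ℕ), 1 ≤ l ∧
        A * R = R * B ∧ S * A = B * S ∧ R * S = A ^ l ∧ S * R = B ^ l := by
  obtain ⟨l, hl0, hl, herase⟩ := hP
  set t : ℤ := A.trace with ht
  set d : ℤ := A.det with hd
  have hchar : (A.map (Int.cast : ℤ → ℂ)).charpoly =
      X ^ 2 - C (t : ℂ) * X + C (d : ℂ) := by
    rw [Matrix.charpoly_fin_two]
    congr 2
    · congr 2
      rw [ht, Matrix.trace_fin_two, Matrix.trace_fin_two]
      simp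
    · rw [hd, Matrix.det_fin_two, Matrix.det_fin_two]
      simp
  have hroot : (l : ℂ) ^ 2 - t * l + d = 0 := by
    have h1 := (Polynomial.mem_roots'.mp hl).2
    rw [hchar, Polynomial.IsRoot.def] at h1
    simpa using h1
  have hrootR : l ^ 2 - t * l + d = 0 := by exact_mod_cast hroot
  have hspec : spec A = {(l : ℂ), ((t - l : ℝ) : ℂ)} := by
    have h1 : (X ^ 2 - C (t : ℂ) * X + C (d : ℂ) : ℂ[X]) =
        (X - C (l : ℂ)) * (X - C ((t - l : ℝ) : ℂ)) := by
      have h2 : (d : ℂ) = l * ((t - l : ℝ) : ℂ) := by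
        push_cast
        linear_combination hroot
      rw [h2]
      push_cast
      simp only [map_sub, map_mul]
      ring
    rw [spec, hchar, h1, Polynomial.roots_mul (mul_ne_zero (Polynomial.X_sub_C_ne_zero _)
      (Polynomial.X_sub_C_ne_zero _)), Polynomial.roots_X_sub_C, Polynomial.roots_X_sub_C]
    rfl
  have hlt : |(t : ℝ) - l| < l := by
    have h1 := herase ((t - l : ℝ) : ℂ) (by
      rw [hspec]
      simp)
    rwa [Complex.norm_real, Real.norm_eq_abs] at h1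
  have htpos : 0 < t := by
    have : (0 : ℝ) < t := by
      have := (abs_lt.mp hlt).1
      linarith
    exact_mod_cast this
  have hDeq : ((t ^ 2 - 4 * d : ℤ) : ℝ) = (2 * l - t) ^ 2 := by
    push_cast
    linear_combination -4 * hrootR
  have h2lt : 0 < 2 * l - t := by
    have := (abs_lt.mp hlt).2
    linarith
  have hDpos : 0 < t ^ 2 - 4 * d := by
    have : (0 : ℝ) < ((t ^ 2 - 4 * d : ℤ) : ℝ) := by rw [hDeq]; positivity
    exact_mod_cast this
  have hsq : ¬ ∃ s : ℤ, t ^ 2 - 4 * d = s ^ 2 := by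
    rintro ⟨s, hs⟩
    rw [hs] at hDeq
    push_cast at hDeq
    have h1 : |(s : ℝ)| = 2 * l - t := by
      have := (sq_eq_sq₀ (abs_nonneg (s : ℝ)) h2lt.le).mp (by rw [sq_abs]; exact hDeq)
      exact this
    apply hirr l hl (((t : ℚ) + |(s : ℚ)|) / 2)
    have h2 : l = ((t : ℝ) + |(s : ℝ)|) / 2 := by linarith
    have h3 : (((((t : ℚ) + |(s : ℚ)|) / 2 : ℚ)) : ℝ) = l := by
      rw [h2]; push_cast; ring
    rw [← h3, Complex.ofReal_ratCast]
  obtain ⟨n, hn, B, hB, hSE⟩ := Pool.R712.SE.good_of A htpos hDpos hsq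
  exact ⟨n, B, hn, hB, hSE⟩

end Pool.Agent.Results.MP_873b83_al.PrimitiveShiftEquiv
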